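import Pool.Agent.H95.RQ.Targets2

/-!
# Artin reciprocity: the global norm index (module GLO)
-/

set_option autoImplicit false

open NumberField NumberField.InfinitePlace IsDedekindDomain

namespace Pool.Agent.H31.RQ

open Pool.Agent.H95.RQ Pool.Agent.H28.RC

theorem pf_GLO (h_HSU : T_HSU) (h_H1S : T_H1S) (h_LOC : T_LOC) (h_WAP : T_WAP) (h_FIX : T_FIX)
    (h_NPO : T_NPO) (h_UFE : T_UFE) : T_GLO := by
  intro F E _ _ _ _ _ _ σ T hσ hNR hCG
  have hloc := fun P : HeightOneSpectrum (𝓞 F) => h_LOC F E P σ hσ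
  choose k0 hk0 using hloc
  refine ⟨T.sup k0, fun k hk => ?_⟩
  have hkP : ∀ P ∈ T, (NN F E ⊔ Uk P k).index ≠ 0 ∧ nP F E P ≤ (NN F E ⊔ Uk P k).index :=
    fun P hP => hk0 P k ((Finset.le_sup hP).trans hk)
  obtain ⟨hNP1, hNP2⟩ := h_NPO F E
  obtain ⟨hU1, hU2⟩ := h_UFE F E σ T hσ
  obtain ⟨hH1, hH2, hH3⟩ := h_HSU F E σ T hσ
  have hH4 := h_H1S F E σ T hσ hNR hCG
  have hn : 1 ≤ Module.finrank F E := Module.finrank_pos
  -- the groups
  obtain ⟨D, hD⟩ : ∃ D, D = NN F E ⊔ UT T k := ⟨_, rfl⟩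
  obtain ⟨R, hR⟩ : ∃ R : Set (RP F), R = {v : RP F | ¬ v.1.IsUnramifiedIn E} := ⟨_, rfl⟩
  obtain ⟨B, hB⟩ : ∃ B, B = (⨅ P ∈ T, (NN F E ⊔ Uk P k)) ⊓ PosR R := ⟨_, rfl⟩
  have hDB : D ≤ B := by
    rw [hD, hB]
    refine sup_le (le_inf ?_ ?_) (le_inf ?_ ?_)
    · exact le_iInf₂ fun P _ => le_sup_left
    · intro x hx v hv
      rw [hR] at hv
      exact hNP1 v hv x hx
    · refine le_iInf₂ fun P hP => ?_
      refine le_trans ?_ le_sup_right
      exact inf_le_left.trans (iInf₂_le P hP)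
    · intro x hx v _
      exact hx.2 v (Set.mem_univ v)
  have hDi : D.index ≠ 0 := by
    have h1 := h_FIX F T k (Module.finrank F E) hn
    have h2 : (powMonoidHom (Module.finrank F E) : Fˣ →* Fˣ).range ⊔ UT T k ≤ D := by
      rw [hD]
      refine sup_le_sup ?_ le_rfl
      rintro _ ⟨a, rfl⟩
      refine ⟨Units.map (algebraMap F E : F →* E) a, ?_⟩
      ext
      simp [Algebra.norm_algebraMap]
    exact ne_zero_of_dvd_ne_zero h1 (Subgroup.index_dvd_of_le h2)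
  have hBD : B.index ≤ D.index :=
    Nat.le_of_dvd (Nat.pos_of_ne_zero hDi) (Subgroup.index_dvd_of_le hDB)
  have hBi : B.index = (∏ P ∈ T, (NN F E ⊔ Uk P k).index) * 2 ^ rI F E := by
    have h1 := h_WAP F T k (fun P => NN F E ⊔ Uk P k) R (fun P _ => le_sup_right)
      (fun P hP => (hkP P hP).1)
    have h2 : Nat.card R = rI F E := by
      rw [hR]
      exact hNP2
    rw [h2] at h1
    rw [hB]
    exact h1
  have hprod : (∏ P ∈ T, nP F E P) ≤ ∏ P ∈ T, (NN F E ⊔ Uk P k).index :=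
    Finset.prod_le_prod' fun P hP => (hkP P hP).2
  have hDlow : 2 ^ rI F E * (∏ P ∈ T, nP F E P) ≤ D.index := by
    refine le_trans ?_ hBD
    rw [hBi, mul_comm]
    exact Nat.mul_le_mul_right _ hprod
  have hC : UF T ⊔ NN F E ⊔ UT T k = UF T ⊔ D := by rw [hD, sup_assoc]
  rw [hC]
  have hDC : D ≤ UF T ⊔ D := le_sup_right
  have hmul := Subgroup.relIndex_mul_index hDC
  have hrel : D.relIndex (UF T ⊔ D) = D.relIndex (UF T) := Subgroup.relIndex_sup_right _ _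
  have hNle : (UE E T).map (Units.map (Algebra.norm F : E →* F)) ≤ D := by
    rw [hD]
    refine le_trans ?_ le_sup_left
    rintro _ ⟨x, _, rfl⟩
    exact ⟨x, rfl⟩
  have hrel2 : D.relIndex (UF T) ≤ h0 (us σ) (Module.finrank F E) (UE E T) := by
    have h1 := Subgroup.relIndex_dvd_of_le_left (UF T) hNle
    rw [← hU2] at h1
    exact Nat.le_of_dvd (Nat.pos_of_ne_zero hH1) h1
  refine ⟨ne_zero_of_dvd_ne_zero hDi (Subgroup.index_dvd_of_le hDC), ?_⟩
  rw [hH4, mul_one] at hH3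
  rw [hrel] at hmul
  have h5 : h0 (us σ) (Module.finrank F E) (UE E T) * Module.finrank F E ≤
      h0 (us σ) (Module.finrank F E) (UE E T) * (UF T ⊔ D).index := by
    rw [hH3]
    refine hDlow.trans ?_
    rw [← hmul]
    exact Nat.mul_le_mul_right _ hrel2
  exact Nat.le_of_mul_le_mul_left h5 (Nat.pos_of_ne_zero hH1)

end Pool.Agent.H31.RQ
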