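import Pool.Agent.H95.RQ.Targets2

/-!
# Artin reciprocity: the fixed points of `E^* / V_j` (module VH0)
-/

set_option autoImplicit false
set_option linter.unusedSectionVars false

open NumberField NumberField.InfinitePlace IsDedekindDomain

namespace Pool.Agent.H31.RQ

open Pool.Agent.H95.RQ Pool.Agent.H28.RC

section

variable {F E : Type} [Field F] [NumberField F] [Field E] [NumberField E] [Algebra F E]
  [IsGalois F E]

lemma us_mul (g h : E ≃ₐ[F] E) (x : Eˣ) : us (g * h) x = us g (us h x) := by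
  ext
  simp [us]

lemma us_one (x : Eˣ) : us (1 : E ≃ₐ[F] E) x = x := by
  ext
  simp [us]

lemma us_val (g : E ≃ₐ[F] E) (x : Eˣ) : ((us g x : Eˣ) : E) = g (x : E) := rfl

lemma nm_us (h_NMN : T_NMN) {σ : E ≃ₐ[F] E} (hσ : ∀ g : E ≃ₐ[F] E, g ∈ Subgroup.zpowers σ)
    (x : Eˣ) : nm (us σ) (Module.finrank F E) (us σ x / x) = 1 := by
  obtain ⟨h1, h2, h3, h4⟩ := h_NMN F E σ hσ
  rw [map_div]
  have : nm (us σ) (Module.finrank F E) (us σ x) = nm (us σ) (Module.finrank F E) x := by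
    ext
    rw [h3, h3, us_val]
    congr 1
    exact Algebra.norm_eq_of_algEquiv σ _
  rw [this, div_self']

/-- the set of `g` with `g x / x ∈ V` is everything -/
lemma all_g {V : Subgroup Eˣ} (hV : ∀ g : E ≃ₐ[F] E, ∀ v ∈ V, us g v ∈ V) {σ : E ≃ₐ[F] E}
    (hσ : ∀ g : E ≃ₐ[F] E, g ∈ Subgroup.zpowers σ) {x : Eˣ} (hx : us σ x / x ∈ V)
    (g : E ≃ₐ[F] E) : us g x / x ∈ V := by
  have hg := hσ g
  rw [Subgroup.zpowers_eq_closure] at hg
  induction hg using Subgroup.closure_induction with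
  | mem g hg => rw [Set.mem_singleton_iff.1 hg]; exact hx
  | one => rw [us_one, div_self']; exact V.one_mem
  | mul g h _ _ ihg ihh =>
    have e : us (g * h) x / x = us g (us h x / x) * (us g x / x) := by
      rw [us_mul, map_div]
      simp
    rw [e]
    exact V.mul_mem (hV g _ ihh) ihg
  | inv g _ ih =>
    have e : us g⁻¹ x / x = us g⁻¹ ((us g x / x)⁻¹) := by
      rw [inv_div, map_div, ← us_mul, inv_mul_cancel, us_one]
    rw [e]
    exact hV _ _ (V.inv_mem ih)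

lemma inL_sum (h_LAM : T_LAM) {P : HeightOneSpectrum (𝓞 F)} {j : ℤ} {ι : Type} (s : Finset ι)
    (f : ι → E) (hf : ∀ i ∈ s, InL P j (f i)) : InL P j (∑ i ∈ s, f i) := by
  obtain ⟨h1, h2, h3, h4, h5, h6, h7, h8⟩ := h_LAM F E P
  classical
  induction s using Finset.induction_on with
  | empty => rw [Finset.sum_empty]; exact h3 j
  | insert a s ha ih =>
    rw [Finset.sum_insert ha]
    exact h1 _ _ _ (hf a (Finset.mem_insert_self _ _))
      (ih fun i hi => hf i (Finset.mem_insert_of_mem hi))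

end

theorem pf_VH0 (h_LAM : T_LAM) (h_VSG : T_VSG) (h_VCT : T_VCT) (h_NMN : T_NMN) : T_VH0 := by
  intro F E _ _ _ _ _ _ P σ hσ
  obtain ⟨l1, l2, l3, l4, l5, ⟨c, hc, l6⟩, ⟨t, l7⟩, l8⟩ := h_LAM F E P
  obtain ⟨j1, hV⟩ := h_VSG F E P
  obtain ⟨j2, hC⟩ := h_VCT F E P σ hσ
  refine ⟨max (max j1 j2) (1 - t), fun j hj x hx => ?_⟩
  have hj1 : j1 ≤ j := ((le_max_left _ _).trans (le_max_left _ _)).trans hj
  have hj2 : j2 ≤ j := ((le_max_right _ _).trans (le_max_left _ _)).trans hj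
  have hjt : 1 - t ≤ j := (le_max_right _ _).trans hj
  -- the element `θ`
  obtain ⟨θ, hθ⟩ : ∃ θ, θ = IsGalois.normalBasis F E 1 := ⟨_, rfl⟩
  obtain ⟨t0, ht0⟩ : ∃ t0, t0 = Algebra.trace F E θ := ⟨_, rfl⟩
  have hsum : algebraMap F E t0 = ∑ g : E ≃ₐ[F] E, g θ := by
    rw [ht0, trace_eq_sum_automorphisms]
  have ht0n : t0 ≠ 0 := by
    intro h0
    rw [h0, map_zero, hθ] at hsum
    have h1 : ∑ g : E ≃ₐ[F] E, (1 : F) • IsGalois.normalBasis F E g = 0 := by
      rw [hsum]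
      refine Finset.sum_congr rfl fun g _ => ?_
      rw [one_smul, IsGalois.normalBasis_apply]
    have h2 := (Fintype.linearIndependent_iff.1 (IsGalois.normalBasis F E).linearIndependent)
      (fun _ => 1) h1 1
    exact one_ne_zero h2
  obtain ⟨d1, hd1⟩ := l8 θ
  obtain ⟨d2, hd2⟩ := l8 (algebraMap F E t0⁻¹)
  obtain ⟨d, hd⟩ : ∃ d, d = min 0 (min d1 d2) := ⟨_, rfl⟩
  have hd0 : d ≤ 0 := by rw [hd]; exact min_le_left _ _
  have hθd : InL P d θ := l4 d d1 θ (by rw [hd]; exact (min_le_right _ _).trans (min_le_left _ _)) hd1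
  have htd : InL P d (algebraMap F E t0⁻¹) :=
    l4 d d2 _ (by rw [hd]; exact (min_le_right _ _).trans (min_le_right _ _)) hd2
  obtain ⟨k, hk⟩ : ∃ k, k = j - 2 * d + 2 * c := ⟨_, rfl⟩
  have hjk : j ≤ k := by omega
  -- the element `x'`
  obtain ⟨y, hy, hy2⟩ := (hC j k hj2 hjk).1 _ hx (by rw [nm_us h_NMN hσ]; exact Subgroup.one_mem _)
  obtain ⟨x', hx'⟩ : ∃ x', x' = x / y := ⟨_, rfl⟩
  have hx'2 : us σ x' / x' ∈ VV E P k := by
    have e : us σ x' / x' = us σ x / x * (y / us σ y) := by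
      rw [hx', map_div, div_div_div_eq, div_mul_div_comm, mul_comm (us σ y) x]
    rw [e]
    exact hy2
  have hk1 : j1 ≤ k := hj1.trans hjk
  have hst : ∀ g : E ≃ₐ[F] E, ∀ v ∈ VV E P k, us g v ∈ VV E P k := by
    intro g v hv
    rw [hV k hk1] at hv ⊢
    have := l5 k g _ hv
    rw [map_sub, map_one] at this
    exact this
  have hall := fun g => all_g hst hσ hx'2 g
  have he : ∀ g : E ≃ₐ[F] E, InL P k (g (x' : E) / x' - 1) := by
    intro g
    have := (hV k hk1 _).1 (hall g)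
    rw [Units.val_div_eq_div_val] at this
    exact this
  obtain ⟨η, hη⟩ : ∃ η, η = algebraMap F E t0⁻¹ * ∑ g : E ≃ₐ[F] E, (g (x' : E) / x' - 1) * g θ :=
    ⟨_, rfl⟩
  have hx0 : (x' : E) ≠ 0 := x'.ne_zero
  have ht0E : algebraMap F E t0 ≠ 0 := by
    rw [Ne, map_eq_zero]
    exact ht0n
  have hβ : algebraMap F E (Algebra.trace F E (x' * θ)) = x' * algebraMap F E t0 * (1 + η) := by
    rw [trace_eq_sum_automorphisms, hη]
    have e1 : ∀ S : E, (x' : E) * algebraMap F E t0 * (1 + algebraMap F E t0⁻¹ * S) =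
        x' * (algebraMap F E t0 + S) := by
      intro S
      rw [map_inv₀]
      field_simp
    rw [e1, hsum, ← Finset.sum_add_distrib, Finset.mul_sum]
    refine Finset.sum_congr rfl fun g _ => ?_
    rw [map_mul]
    field_simp
    ring
  have hηj : InL P j η := by
    have h1 : InL P (k + d - c) (∑ g : E ≃ₐ[F] E, (g (x' : E) / x' - 1) * g θ) :=
      inL_sum h_LAM _ _ fun g _ => l6 _ _ _ _ (he g) (l5 _ g _ hθd)
    have h2 := l6 _ _ _ _ htd h1
    rw [hη]
    refine l4 _ _ _ ?_ h2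
    omega
  have h1η : 1 + η ≠ 0 := by
    intro h0
    have h1 : η = algebraMap F E (-1) := by
      rw [map_neg, map_one]
      linear_combination h0
    rw [h1, l7, Valuation.map_neg, map_one] at hηj
    rw [← WithZero.exp_zero, WithZero.exp_le_exp] at hηj
    omega
  have hu : Units.mk0 (1 + η) h1η ∈ VV E P j := by
    rw [hV j hj1]
    simpa using hηj
  have htr : Algebra.trace F E (x' * θ) ≠ 0 := by
    intro h0
    rw [h0, map_zero] at hβ
    exact mul_ne_zero (mul_ne_zero hx0 ht0E) h1η hβ.symm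
  refine ⟨Units.mk0 (Algebra.trace F E (x' * θ) / t0) (div_ne_zero htr ht0n), ?_⟩
  have e : x / Units.map (algebraMap F E : F →* E)
      (Units.mk0 (Algebra.trace F E (x' * θ) / t0) (div_ne_zero htr ht0n)) =
      y * (Units.mk0 (1 + η) h1η)⁻¹ := by
    ext
    rw [Units.val_div_eq_div_val, Units.val_mul, Units.val_inv_eq_inv_val, Units.coe_map]
    simp only [Units.val_mk0, MonoidHom.coe_coe, map_div₀]
    rw [hβ, hx', Units.val_div_eq_div_val]
    have hy0 : (y : E) ≠ 0 := y.ne_zero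
    have hxx : (x : E) ≠ 0 := x.ne_zero
    field_simp
  rw [e]
  exact Subgroup.mul_mem _ hy (Subgroup.inv_mem _ hu)

end Pool.Agent.H31.RQ
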